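import Pool.Agent.Q53.HannaNeumann.Main

/-!
The inequality of Hanna Neumann type for algebraic submodules of free modules over the group
algebra of a free group is false, over every field and in every dimension `d ≥ 2`.

The counterexample: `F` is free on `x, y`, `I` is the augmentation ideal of `K[F]`, `M` is the
submodule `I ⊕ ... ⊕ I ⊕ (x - 1, y - 1) K[F]` of `K[F]^d` with `d - 2` summands `I`, and `H` is
generated by the conjugates `x ^ i * y * x ^ (-i)`, `0 ≤ i < h`.
-/

set_option autoImplicit false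

open Module

namespace Pool.Agent.Results.MP_6883a6_al.HannaNeumannFails

open Q53.HN

/-- The assertion of Q1: for every field `K`, every free group `F` (on a set `ι`), every `d ≥ 1`,
every nontrivial finitely generated subgroup `H` of `F` and every finitely generated algebraic
right submodule `M` of `K[F]^d`, if `r`, `m`, `h` are the ranks of `M ∩ K[H]^d`, of `M` and of
`H`, then `r / d - 1 ≤ (m / d - 1) (h - 1)`. -/
def Inequality : Prop :=
  ∀ (K : Type) [Field K] (ι : Type) (d : ℕ) (H : Subgroup (FreeGroup ι))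
    (M : Submodule (MonoidAlgebra K (FreeGroup ι))ᵐᵒᵖ (Fin d → MonoidAlgebra K (FreeGroup ι))),
    1 ≤ d → H ≠ ⊥ → H.FG → M.FG → IsAlgebraicSub M →
    ∀ r m h : ℕ, HasRank K H (inter M H) r → HasRank K (FreeGroup ι) M m → GroupHasRank H h →
      ((r : ℝ) / d - 1) ≤ ((m : ℝ) / d - 1) * ((h : ℝ) - 1)

theorem counterexample (K : Type*) [Field K] (d h : ℕ) (hd : 2 ≤ d) (hh : 4 ≤ h) :
      ∃ (H : Subgroup (FreeGroup (Fin 2)))
        (M : Submodule (MonoidAlgebra K (FreeGroup (Fin 2)))ᵐᵒᵖ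
          (Fin d → MonoidAlgebra K (FreeGroup (Fin 2)))),
        H ≠ ⊥ ∧ H.FG ∧ GroupHasRank H h ∧ M.FG ∧ IsAlgebraicSub M ∧
        HasRank K (FreeGroup (Fin 2)) M (2 * d - 3) ∧
        HasRank K H (inter M H) (h * (d - 2)) ∧
        (((h * (d - 2) : ℕ) : ℝ) / d - 1) =
          (((2 * d - 3 : ℕ) : ℝ) / d - 1) * ((h : ℝ) - 1) + ((h : ℝ) - 3) / d := by
  obtain ⟨a, rfl⟩ : ∃ a, d = a + 2 := ⟨d - 2, by omega⟩
  have h1 : 2 * (a + 2) - 3 = 2 * a + 1 := by omega
  have h2 : a + 2 - 2 = a := by omega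
  rw [h1, h2]
  refine ⟨Hsub h, MM K a, Hsub_ne_bot (by omega), Hsub_fg h, ⟨bH h⟩, ?_, isAlgebraic_MM a,
    hasRank_MM a, hasRank_inter a h, ?_⟩
  · obtain ⟨b⟩ := hasRank_MM (K := K) a
    have : Module.Finite (MonoidAlgebra K F2)ᵐᵒᵖ (MM K a) := Module.Finite.of_basis b
    exact Module.Finite.iff_fg.1 this
  · have h3 : ((a + 2 : ℕ) : ℝ) ≠ 0 := by positivity
    push_cast at h3 ⊢
    field_simp
    ring

/-- The inequality is false. Moreover, for every field `K`, every `d ≥ 2` and every `h ≥ 4` there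
are a subgroup `H` of the free group `F` of rank two, free of rank `h`, and a finitely generated
algebraic right submodule `M` of `K[F]^d`, of rank `2 d - 3` (which is at least `d` for `d ≥ 3`,
and more than `d` for `d ≥ 4`), such that `M ∩ K[H]^d` has rank `h (d - 2)`, so that the left hand
side of the inequality exceeds its right hand side by `(h - 3) / d`. -/
theorem result : ¬ Inequality ∧
    ∀ (K : Type*) [Field K] (d h : ℕ), 2 ≤ d → 4 ≤ h →
      ∃ (H : Subgroup (FreeGroup (Fin 2)))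
        (M : Submodule (MonoidAlgebra K (FreeGroup (Fin 2)))ᵐᵒᵖ
          (Fin d → MonoidAlgebra K (FreeGroup (Fin 2)))),
        H ≠ ⊥ ∧ H.FG ∧ GroupHasRank H h ∧ M.FG ∧ IsAlgebraicSub M ∧
        HasRank K (FreeGroup (Fin 2)) M (2 * d - 3) ∧
        HasRank K H (inter M H) (h * (d - 2)) ∧
        (((h * (d - 2) : ℕ) : ℝ) / d - 1) =
          (((2 * d - 3 : ℕ) : ℝ) / d - 1) * ((h : ℝ) - 1) + ((h : ℝ) - 3) / d := by
  refine ⟨?_, fun K _ d h hd hh => counterexample K d h hd hh⟩
  intro hI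
  obtain ⟨H, M, h1, h2, h3, h4, h5, h6, h8, h9⟩ :=
    counterexample ℚ 4 4 (by norm_num) (by norm_num)
  have h10 := hI ℚ (Fin 2) 4 H M (by norm_num) h1 h2 h4 h5 _ _ _ h8 h6 h3
  rw [h9] at h10
  norm_num at h10

end Pool.Agent.Results.MP_6883a6_al.HannaNeumannFails
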